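import Mathlib

/-!
# Selective coideals and analytic families

If `H` is a selective coideal on `ω` and `e` is a continuous map from the Baire space to `P(ω)`
with no value in `H`, then some member of `H` has finite intersection with every value of `e`.

Helper file for problem MP_af84fe_lc.
-/

namespace Pool.Agent.Q302.AZ

/-- Selective coideals on `ω`. -/
structure SelCoideal (H : Set (Set ℕ)) : Prop where
  up : ∀ D ∈ H, ∀ D', D ⊆ D' → D' ∈ H
  split : ∀ D D', D ∪ D' ∈ H → D ∈ H ∨ D' ∈ H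
  inf : ∀ D ∈ H, D.Infinite
  univ : Set.univ ∈ H
  P : ∀ D : ℕ → Set ℕ, (∀ m, D (m + 1) ⊆ D m) → (∀ m, D m ∈ H) →
    ∃ E ∈ H, E ⊆ D 0 ∧ ∀ m, (E \ D m).Finite
  Q : ∀ E ∈ H, ∀ c : ℕ → ℕ, (∀ j, {n | c n = j}.Finite) → ∃ E' ∈ H, E' ⊆ E ∧ Set.InjOn c E'

namespace SelCoideal

variable {H : Set (Set ℕ)} (hH : SelCoideal H)

include hH

theorem diff_finite {D S : Set ℕ} (hD : D ∈ H) (hS : S.Finite) : D \ S ∈ H := by
  have h1 : (D \ S) ∪ (D ∩ S) ∈ H := by
    rw [Set.sdiff_union_inter]; exact hD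
  rcases hH.split _ _ h1 with h | h
  · exact h
  · exact absurd (hS.subset Set.inter_subset_right) (hH.inf _ h)

theorem almost {D E : Set ℕ} (hE : E ∈ H) (h : (E \ D).Finite) : E ∩ D ∈ H := by
  have := hH.diff_finite hE h
  rwa [Set.sdiff_sdiff_right_self] at this

/-- Sets with gaps. -/
theorem gaps (h : ℕ → ℕ) {E : Set ℕ} (hE : E ∈ H) :
    ∃ E' ∈ H, E' ⊆ E ∧ ∀ m ∈ E', ∀ n ∈ E', m < n → h m ≤ n := by
  classical
  -- the partition into intervals
  obtain ⟨a, ha0, ha⟩ : ∃ a : ℕ → ℕ, a 0 = 0 ∧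
      ∀ j, a (j + 1) = a j + 1 + (Finset.range (a j + 1)).sup h :=
    ⟨fun j => Nat.rec 0 (fun _ x => x + 1 + (Finset.range (x + 1)).sup h) j, rfl, fun _ => rfl⟩
  have ha1 : ∀ j, a j < a (j + 1) := fun j => by rw [ha]; omega
  have hmono : StrictMono a := strictMono_nat_of_lt_succ ha1
  have hge : ∀ j, j ≤ a j := hmono.id_le
  let c : ℕ → ℕ := fun n => Nat.findGreatest (fun j => a j ≤ n) n
  have hc1 : ∀ n, a (c n) ≤ n := fun n =>
    Nat.findGreatest_spec (P := fun j => a j ≤ n) (Nat.zero_le n) (by rw [ha0]; exact Nat.zero_le n)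
  have hc2 : ∀ n, n < a (c n + 1) := by
    intro n
    by_contra hcon
    push Not at hcon
    have : c n + 1 ≤ c n := Nat.le_findGreatest ((hge _).trans hcon) hcon
    omega
  have hfin : ∀ j, {n | c n = j}.Finite := by
    intro j
    apply (Set.finite_lt_nat (a (j + 1))).subset
    intro n hn
    have := hc2 n
    rw [show c n = j from hn] at this
    exact this
  obtain ⟨E₁, hE₁, hE₁E, hinj⟩ := hH.Q E hE c hfin
  have key : ∀ p : ℕ, ∀ m ∈ E₁ ∩ {n | c n % 2 = p}, ∀ n ∈ E₁ ∩ {n | c n % 2 = p}, m < n → h m ≤ n := by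
    intro p m hm n hn hmn
    have h1 : c m ≠ c n := fun h => hmn.ne (hinj hm.1 hn.1 h)
    have h2 : c m ≤ c n := by
      by_contra hcon
      push Not at hcon
      have h3 : a (c n + 1) ≤ a (c m) := hmono.monotone hcon
      have := hc2 n
      have := hc1 m
      omega
    have h3 : c m + 2 ≤ c n := by
      have := hm.2
      have := hn.2
      simp only [Set.mem_ofPred_eq] at *
      omega
    have h4 : a (c m + 2) ≤ n := (hmono.monotone h3).trans (hc1 n)
    have h5 : h m ≤ (Finset.range (a (c m + 1) + 1)).sup h :=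
      Finset.le_sup (f := h) (Finset.mem_range.2 (by have := hc2 m; omega))
    have h6 := ha (c m + 1)
    rw [show c m + 1 + 1 = c m + 2 from rfl] at h6
    omega
  have h1 : (E₁ ∩ {n | c n % 2 = 0}) ∪ (E₁ ∩ {n | c n % 2 = 1}) ∈ H := by
    apply hH.up _ hE₁
    intro n hn
    rcases Nat.mod_two_eq_zero_or_one (c n) with h | h
    · exact Or.inl ⟨hn, h⟩
    · exact Or.inr ⟨hn, h⟩
  rcases hH.split _ _ h1 with h2 | h2
  · exact ⟨_, h2, Set.inter_subset_left.trans hE₁E, key 0⟩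
  · exact ⟨_, h2, Set.inter_subset_left.trans hE₁E, key 1⟩

end SelCoideal

/-- Basic clopen sets of the Baire space. -/
def cyl (t : List ℕ) : Set (ℕ → ℕ) := {f | ∀ i (h : i < t.length), f i = t[i]}

/-- `E` is free from the part of the family below `t`. -/
def Free (e : (ℕ → ℕ) → Set ℕ) (t : List ℕ) (E : Set ℕ) : Prop := ∀ f ∈ cyl t, (E ∩ e f).Finite

/-- the part of the family below `t` is `H`-tall below `E`. -/
def Tall (H : Set (Set ℕ)) (e : (ℕ → ℕ) → Set ℕ) (t : List ℕ) (E : Set ℕ) : Prop :=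
  ∀ E' ∈ H, E' ⊆ E → ∃ f ∈ cyl t, (E' ∩ e f).Infinite

theorem Free.almost {e : (ℕ → ℕ) → Set ℕ} {t : List ℕ} {E E' : Set ℕ} (h : Free e t E)
    (hE : (E' \ E).Finite) : Free e t E' := by
  intro f hf
  apply ((h f hf).union hE).subset
  rintro n ⟨h1, h2⟩
  by_cases h3 : n ∈ E
  · exact Or.inl ⟨h3, h2⟩
  · exact Or.inr ⟨h1, h3⟩

/-- prefixes -/
theorem mem_cyl_ofFn (f : ℕ → ℕ) (k : ℕ) : f ∈ cyl (List.ofFn (fun i : Fin k => f i)) := by
  intro i h
  simp

theorem cyl_anti {t t' : List ℕ} (h : t <+: t') : cyl t' ⊆ cyl t := by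
  intro f hf i hi
  have h1 : i < t'.length := hi.trans_le h.length_le
  rw [hf i h1]
  exact (List.IsPrefix.getElem h hi).symm

theorem prefix_ofFn {f : ℕ → ℕ} {t : List ℕ} (hf : f ∈ cyl t) {k : ℕ} (hk : t.length ≤ k) :
    t <+: List.ofFn (fun i : Fin k => f i) := by
  rw [List.prefix_iff_eq_take]
  apply List.ext_getElem
  · simp [hk]
  · intro i h1 h2
    rw [List.getElem_take, List.getElem_ofFn]
    exact (hf i h1).symm

variable {H : Set (Set ℕ)} (hH : SelCoideal H) (e : (ℕ → ℕ) → Set ℕ)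

include hH

theorem decide_all : ∃ E ∈ H, ∀ t, Free e t E ∨ Tall H e t E := by
  classical
  obtain ⟨q, hq⟩ := exists_surjective_nat (List ℕ)
  have hstep : ∀ (t : List ℕ) (D : Set ℕ), D ∈ H → ∃ D' ∈ H, D' ⊆ D ∧ (Free e t D' ∨ Tall H e t D') := by
    intro t D hD
    by_cases h : Tall H e t D
    · exact ⟨D, hD, subset_rfl, Or.inr h⟩
    · unfold Tall at h
      push Not at h
      obtain ⟨E', hE', hE'D, h⟩ := h
      exact ⟨E', hE', hE'D, Or.inl (fun f hf => h f hf)⟩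
  choose! g hg1 hg2 hg3 using hstep
  obtain ⟨D, hD0, hD⟩ : ∃ D : ℕ → Set ℕ, D 0 = Set.univ ∧ ∀ m, D (m + 1) = g (q m) (D m) :=
    ⟨fun m => Nat.rec Set.univ (fun m X => g (q m) X) m, rfl, fun _ => rfl⟩
  have hDH : ∀ m, D m ∈ H := by
    intro m
    induction m with
    | zero => rw [hD0]; exact hH.univ
    | succ m ih => rw [hD]; exact hg1 _ _ ih
  obtain ⟨E, hE, -, hED⟩ := hH.P D (fun m => by rw [hD]; exact hg2 _ _ (hDH m)) hDH
  refine ⟨E, hE, fun t => ?_⟩
  obtain ⟨m, rfl⟩ := hq t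
  have h1 := hg3 (q m) (D m) (hDH m)
  rw [← hD] at h1
  rcases h1 with h1 | h1
  · exact Or.inl (h1.almost (hED (m + 1)))
  · right
    intro E' hE' hE'E
    have h2 : E' ∩ D (m + 1) ∈ H :=
      hH.almost hE' ((hED (m + 1)).subset (Set.sdiff_subset_sdiff_left hE'E))
    obtain ⟨f, hf, hf'⟩ := h1 _ h2 Set.inter_subset_right
    refine ⟨f, hf, hf'.mono ?_⟩
    rintro n ⟨h3, h4⟩
    exact ⟨h3.1, h4⟩

/-- **Main theorem on selective coideals.** -/
theorem mathias (he : ∀ f n, n ∈ e f → ∃ k, ∀ f', (∀ i < k, f' i = f i) → n ∈ e f')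
    (heH : ∀ f, e f ∉ H) : ∃ E ∈ H, ∀ f, (E ∩ e f).Finite := by
  classical
  obtain ⟨E, hE, hdec⟩ := decide_all hH e
  rcases hdec [] with h0 | h0
  · exact ⟨E, hE, fun f => h0 f (fun i hi => absurd hi (Nat.not_lt_zero i))⟩
  exfalso
  -- good points
  let N : List ℕ → Set ℕ := fun t => {n | ∃ t', t <+: t' ∧ t.length < t'.length ∧ Tall H e t' E ∧
    ∀ f ∈ cyl t', n ∈ e f}
  have hN : ∀ t, Tall H e t E → E \ N t ∉ H := by
    intro t ht hcon
    obtain ⟨f, hf, hinf⟩ := ht _ hcon Set.sdiff_subset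
    obtain ⟨n, ⟨hnE, hnN⟩, hnf⟩ := hinf.nonempty
    obtain ⟨k, hk⟩ := he f n hnf
    apply hnN
    refine ⟨List.ofFn (fun i : Fin (max k (t.length + 1)) => f i), prefix_ofFn hf (by omega), ?_, ?_, ?_⟩
    · simp
    · rcases hdec (List.ofFn (fun i : Fin (max k (t.length + 1)) => f i)) with h1 | h1
      · exfalso
        apply hinf
        apply (h1 f (mem_cyl_ofFn f _)).subset
        rintro n ⟨h2, h3⟩
        exact ⟨h2.1, h3⟩
      · exact h1
    · intro f' hf'
      apply hk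
      intro i hi
      have h2 := hf' i (by simp; omega)
      rw [h2]
      simp
  -- a pseudo-intersection of all good sets
  obtain ⟨q, hq⟩ := exists_surjective_nat (List ℕ)
  let D : ℕ → Set ℕ := fun m => {n | n ∈ E ∧ ∀ j < m, Tall H e (q j) E → n ∈ N (q j)}
  have hDH : ∀ m, D m ∈ H := by
    intro m
    induction m with
    | zero =>
      apply hH.up _ hE
      intro n hn
      exact ⟨hn, fun j hj => absurd hj (Nat.not_lt_zero j)⟩
    | succ m ih =>
      by_cases ht : Tall H e (q m) E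
      · have h1 : D (m + 1) ∪ (E \ N (q m)) ∈ H := by
          apply hH.up _ ih
          intro n hn
          by_cases h2 : n ∈ N (q m)
          · left
            refine ⟨hn.1, fun j hj htj => ?_⟩
            rcases Nat.lt_succ_iff_lt_or_eq.1 hj with h3 | h3
            · exact hn.2 j h3 htj
            · rw [h3]; exact h2
          · exact Or.inr ⟨hn.1, h2⟩
        rcases hH.split _ _ h1 with h2 | h2
        · exact h2
        · exact absurd h2 (hN _ ht)
      · apply hH.up _ ih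
        intro n hn
        refine ⟨hn.1, fun j hj htj => ?_⟩
        rcases Nat.lt_succ_iff_lt_or_eq.1 hj with h3 | h3
        · exact hn.2 j h3 htj
        · rw [h3] at htj; exact absurd htj ht
  obtain ⟨E₁, hE₁, hE₁0, hE₁D⟩ := hH.P D (fun m n hn => ⟨hn.1, fun j hj => hn.2 j (by omega)⟩) hDH
  have hE₁N : ∀ t, Tall H e t E → (E₁ \ N t).Finite := by
    intro t ht
    obtain ⟨m, rfl⟩ := hq t
    apply (hE₁D (m + 1)).subset
    rintro n ⟨h1, h2⟩
    exact ⟨h1, fun h3 => h2 (h3.2 m (Nat.lt_succ_self m) ht)⟩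
  -- the step function
  have hτ : ∀ t n, ∃ t', t <+: t' ∧ (Tall H e t E → Tall H e t' E) ∧
      (n ∈ N t → t.length < t'.length ∧ ∀ f ∈ cyl t', n ∈ e f) := by
    intro t n
    by_cases h : n ∈ N t
    · obtain ⟨t', h1, h2, h3, h4⟩ := h
      exact ⟨t', h1, fun _ => h3, fun _ => ⟨h2, h4⟩⟩
    · exact ⟨t, List.prefix_rfl, id, fun h' => absurd h' h⟩
  choose τ hτ1 hτ2 hτ3 using hτ
  -- reachable nodes
  obtain ⟨R, hR0, hR⟩ : ∃ R : ℕ → Finset (List ℕ), R 0 = {[]} ∧
      ∀ m, R (m + 1) = R m ∪ (R m).image (fun t => τ t m) :=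
    ⟨fun m => Nat.rec {[]} (fun m X => X ∪ X.image (fun t => τ t m)) m, rfl, fun _ => rfl⟩
  have hRtall : ∀ m, ∀ t ∈ R m, Tall H e t E := by
    intro m
    induction m with
    | zero =>
      intro t ht
      rw [hR0, Finset.mem_singleton] at ht
      rw [ht]; exact h0
    | succ m ih =>
      intro t ht
      rw [hR, Finset.mem_union, Finset.mem_image] at ht
      rcases ht with ht | ⟨t', ht', rfl⟩
      · exact ih t ht
      · exact hτ2 t' m (ih t' ht')
  have hRmono : Monotone R := monotone_nat_of_le_succ (fun m => by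
    rw [hR]; exact Finset.subset_union_left)
  have hb : ∀ t, ∃ b, Tall H e t E → ∀ n ∈ E₁, b ≤ n → n ∈ N t := by
    intro t
    by_cases ht : Tall H e t E
    · obtain ⟨b, hb⟩ := (hE₁N t ht).bddAbove
      refine ⟨b + 1, fun _ n hn hbn => ?_⟩
      by_contra hcon
      have := hb ⟨hn, hcon⟩
      omega
    · exact ⟨0, fun h => absurd h ht⟩
  choose b hb using hb
  let h : ℕ → ℕ := fun m => (R (m + 1)).sup b
  have hh : ∀ m, ∀ t ∈ R (m + 1), ∀ n ∈ E₁, h m ≤ n → n ∈ N t := by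
    intro m t ht n hn hmn
    exact hb t (hRtall _ t ht) n hn ((Finset.le_sup (f := b) ht).trans hmn)
  obtain ⟨E₂, hE₂, hE₂E₁, hgap⟩ := hH.gaps h (hH.diff_finite hE₁ (Set.finite_lt_nat (b [])))
  have hE₂inf := hH.inf _ hE₂
  -- enumerate `E₂`
  have : Infinite E₂ := Set.infinite_coe_iff.2 hE₂inf
  let ν : ℕ → ℕ := fun i => Nat.nth (· ∈ E₂) i
  have hν1 : ∀ i, ν i ∈ E₂ := fun i => Nat.nth_mem_of_infinite hE₂inf i
  have hν2 : StrictMono ν := Nat.nth_strictMono hE₂inf
  have hν3 : ∀ n ∈ E₂, ∃ i, ν i = n := fun n hn => by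
    have h5 := Nat.range_nth_of_infinite (p := (· ∈ E₂)) hE₂inf
    have : n ∈ Set.range (Nat.nth (· ∈ E₂)) := by
      rw [h5]; exact hn
    exact this
  obtain ⟨t, ht0, ht⟩ : ∃ t : ℕ → List ℕ, t 0 = [] ∧ ∀ i, t (i + 1) = τ (t i) (ν i) :=
    ⟨fun i => Nat.rec [] (fun i x => τ x (ν i)) i, rfl, fun _ => rfl⟩
  have htR : ∀ i, t i ∈ R (ν i) ∧ t (i + 1) ∈ R (ν i + 1) := by
    intro i
    induction i with
    | zero =>
      have h1 : t 0 ∈ R (ν 0) := by
        rw [ht0]
        apply hRmono (Nat.zero_le _)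
        rw [hR0]; simp
      refine ⟨h1, ?_⟩
      rw [ht, hR, Finset.mem_union, Finset.mem_image]
      exact Or.inr ⟨t 0, h1, rfl⟩
    | succ i ih =>
      have h1 : t (i + 1) ∈ R (ν (i + 1)) := hRmono (hν2 (Nat.lt_succ_self i)) ih.2
      refine ⟨h1, ?_⟩
      rw [ht, hR, Finset.mem_union, Finset.mem_image]
      exact Or.inr ⟨t (i + 1), h1, rfl⟩
  have htN : ∀ i, ν i ∈ N (t i) := by
    intro i
    cases i with
    | zero =>
      rw [ht0]
      have h1 := hE₂E₁ (hν1 0)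
      exact hb [] h0 _ h1.1 (not_lt.1 h1.2)
    | succ i =>
      exact hh (ν i) _ (htR i).2 _ (hE₂E₁ (hν1 (i + 1))).1
        (hgap _ (hν1 i) _ (hν1 (i + 1)) (hν2 (Nat.lt_succ_self i)))
  have hpre : ∀ i, t i <+: t (i + 1) := fun i => by rw [ht]; exact hτ1 _ _
  have hpre' : ∀ i j, i ≤ j → t i <+: t j := by
    intro i j hij
    induction hij with
    | refl => exact List.prefix_rfl
    | step _ ih => exact ih.trans (hpre _)
  have hlen : ∀ i, i ≤ (t i).length := by
    intro i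
    induction i with
    | zero => exact Nat.zero_le _
    | succ i ih =>
      have := (hτ3 (t i) (ν i) (htN i)).1
      rw [← ht] at this
      omega
  -- the limit
  let f : ℕ → ℕ := fun j => (t (j + 1))[j]'(hlen (j + 1))
  have hf : ∀ i, f ∈ cyl (t i) := by
    intro i j hj
    show (t (j + 1))[j]'(hlen (j + 1)) = (t i)[j]
    rcases le_total i (j + 1) with h1 | h1
    · exact (List.IsPrefix.getElem (hpre' _ _ h1) hj).symm
    · exact List.IsPrefix.getElem (hpre' _ _ h1) (hlen (j + 1))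
  apply heH f
  apply hH.up _ hE₂
  intro n hn
  obtain ⟨i, rfl⟩ := hν3 n hn
  have h1 := (hτ3 (t i) (ν i) (htN i)).2
  rw [← ht] at h1
  exact h1 f (hf (i + 1))

end Pool.Agent.Q302.AZ
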