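import Pool.Agent.Q302.AZ.Tall

/-!
# Analytic maximal almost disjoint families modulo the density zero ideal are countable

Helper file for problem MP_af84fe_lc.
-/

namespace Pool.Agent.Q302.AZ

open Filter Topology Pool.Agent.Q302.NK

open Classical in
/-- The density zero ideal. -/
def Z0 : Set (Set ℕ) :=
  {A | Tendsto (fun n : ℕ => (((Finset.range n).filter (· ∈ A)).card : ℝ) / n) atTop (𝓝 0)}

/-- `𝒜` is an `I`-MAD family. -/
def IsMAD (I 𝒜 : Set (Set ℕ)) : Prop :=
  (∀ A ∈ 𝒜, A ∉ I) ∧ (∀ A ∈ 𝒜, ∀ B ∈ 𝒜, A ≠ B → A ∩ B ∈ I) ∧ ∀ X, X ∉ I → ∃ A ∈ 𝒜, X ∩ A ∉ I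

/-- A family of subsets of `ℕ` is analytic as a subset of the Cantor space. -/
def IsAnalyticFamily (𝒜 : Set (Set ℕ)) : Prop :=
  MeasureTheory.AnalyticSet {x : ℕ → Bool | {n | x n = true} ∈ 𝒜}

open Classical in
/-- counting function -/
noncomputable def cnt (A : Set ℕ) (n : ℕ) : ℕ := ((Finset.range n).filter (· ∈ A)).card

theorem cnt_mono (A : Set ℕ) : Monotone (cnt A) := by
  classical
  intro m n h
  unfold cnt
  exact Finset.card_le_card (Finset.filter_subset_filter _ (Finset.range_mono h))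

theorem cnt_block (A : Set ℕ) (n : ℕ) : (cnt A (2 ^ (n + 1)) : ℝ) = cnt A (2 ^ n) + 2 ^ n * dens n A := by
  classical
  unfold cnt dens
  rw [mul_div_cancel₀ _ (by positivity : (2 : ℝ) ^ n ≠ 0)]
  rw [← Nat.cast_add, ← Finset.card_union_of_disjoint]
  · congr 2
    ext x
    simp only [Finset.mem_filter, Finset.mem_union, Finset.mem_range, Finset.mem_Ico]
    have : 2 ^ n < 2 ^ (n + 1) := Nat.pow_lt_pow_right (by norm_num) (Nat.lt_succ_self n)
    constructor
    · rintro ⟨h1, h2⟩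
      by_cases h3 : x < 2 ^ n
      · exact Or.inl ⟨h3, h2⟩
      · exact Or.inr ⟨⟨not_lt.1 h3, h1⟩, h2⟩
    · rintro (⟨h1, h2⟩ | ⟨⟨h1, h3⟩, h2⟩)
      · exact ⟨h1.trans this, h2⟩
      · exact ⟨h3, h2⟩
  · rw [Finset.disjoint_left]
    intro x hx hx'
    simp only [Finset.mem_filter, Finset.mem_range, Finset.mem_Ico] at hx hx'
    exact absurd hx.1 (not_lt.2 hx'.1.1)

theorem Z0_eq_Z : Z0 = Z := by
  ext A
  have hdef : A ∈ Z0 ↔ Tendsto (fun n : ℕ => (cnt A n : ℝ) / n) atTop (𝓝 0) := Iff.rfl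
  rw [hdef]
  constructor
  · intro h
    have h1 : Tendsto (fun n : ℕ => 2 * ((cnt A (2 ^ (n + 1)) : ℝ) / ((2 ^ (n + 1) : ℕ) : ℝ)))
        atTop (𝓝 (2 * 0)) := by
      apply Tendsto.const_mul
      apply h.comp
      exact (tendsto_pow_atTop_atTop_of_one_lt (by norm_num)).comp (tendsto_add_atTop_nat 1)
    rw [mul_zero] at h1
    refine squeeze_zero (fun n => dens_nonneg n A) (fun n => ?_) h1
    have h2 := cnt_block A n
    have h3 : (0 : ℝ) ≤ cnt A (2 ^ n) := Nat.cast_nonneg _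
    have h4 : (0 : ℝ) < 2 ^ n := by positivity
    have h5 : ((2 ^ (n + 1) : ℕ) : ℝ) = 2 * 2 ^ n := by push_cast; ring
    have h6 : 2 * ((cnt A (2 ^ (n + 1)) : ℝ) / ((2 ^ (n + 1) : ℕ) : ℝ)) =
        cnt A (2 ^ (n + 1)) / 2 ^ n := by
      rw [h5]; field_simp
    rw [h6, le_div_iff₀ h4, h2]
    linarith
  · intro h
    rw [tendsto_order]
    refine ⟨fun a ha => Eventually.of_forall fun n => lt_of_lt_of_le ha (by positivity), ?_⟩
    intro ε hε
    obtain ⟨J, hJ⟩ := eventually_atTop.1 (Z_small h (show 0 < ε / 4 by positivity))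
    have h1 : ∀ m, J ≤ m → (cnt A (2 ^ m) : ℝ) ≤ cnt A (2 ^ J) + ε / 4 * 2 ^ m := by
      intro m hm
      induction hm with
      | refl =>
        have : 0 ≤ ε / 4 * 2 ^ J := by positivity
        linarith
      | step hm ih =>
        rename_i m
        have h2 := cnt_block A m
        have h3 := hJ m hm
        have h4 : (2 : ℝ) ^ m * dens m A ≤ 2 ^ m * (ε / 4) := by gcongr
        rw [Nat.succ_eq_add_one, h2, pow_succ]
        linarith
    obtain ⟨M, hM⟩ := exists_nat_gt ((cnt A (2 ^ J) : ℝ) / (ε / 2))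
    filter_upwards [eventually_ge_atTop (max (M + 1) (2 ^ J))] with N hN
    have hN0 : 0 < N := by omega
    have hNR : (0 : ℝ) < N := by exact_mod_cast hN0
    have hm1 : 2 ^ Nat.log 2 N ≤ N := Nat.pow_log_le_self 2 hN0.ne'
    have hm2 : N < 2 ^ (Nat.log 2 N + 1) := Nat.lt_pow_succ_log_self (by norm_num) N
    have hmJ : J ≤ Nat.log 2 N := Nat.le_log_of_pow_le (by norm_num) ((le_max_right _ _).trans hN)
    have h2 := h1 (Nat.log 2 N + 1) (by omega)
    have h3 : (cnt A N : ℝ) ≤ cnt A (2 ^ (Nat.log 2 N + 1)) := by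
      exact_mod_cast cnt_mono A hm2.le
    have h4 : ((2 : ℝ) ^ Nat.log 2 N) ≤ N := by exact_mod_cast hm1
    have h5 : (M : ℝ) < N := by
      have : M < N := by omega
      exact_mod_cast this
    have h6 : (cnt A (2 ^ J) : ℝ) < ε / 2 * N := by
      rw [div_lt_iff₀ (by positivity)] at hM
      nlinarith
    rw [div_lt_iff₀ hNR]
    have h7 : ε / 4 * (2 : ℝ) ^ (Nat.log 2 N + 1) = ε / 2 * 2 ^ Nat.log 2 N := by
      rw [pow_succ]; ring
    have h8 : ε / 2 * (2 : ℝ) ^ Nat.log 2 N ≤ ε / 2 * N := by gcongr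
    rw [h7] at h2
    linarith

/-- **Main theorem.** Every analytic `Z0`-MAD family is countable. -/
theorem main (𝒜 : Set (Set ℕ)) (h𝒜 : IsAnalyticFamily 𝒜) (hmad : IsMAD Z0 𝒜) : 𝒜.Countable := by
  obtain ⟨h1, h2, h3⟩ := hmad
  rw [Z0_eq_Z] at h1 h2 h3
  rw [IsAnalyticFamily, MeasureTheory.AnalyticSet_def] at h𝒜
  rcases h𝒜 with h0 | ⟨f, hf, hr⟩
  · have : 𝒜 = ∅ := by
      ext A
      simp only [Set.mem_empty_iff_false, iff_false]
      intro hA
      classical
      have h4 : (fun n => decide (n ∈ A)) ∈ {x : ℕ → Bool | {n | x n = true} ∈ 𝒜} := by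
        have : {n | (fun n => decide (n ∈ A)) n = true} = A := by ext n; simp
        rw [Set.mem_ofPred_eq, this]
        exact hA
      rw [h0] at h4
      exact h4
    rw [this]
    exact Set.countable_empty
  · refine countable h2 h1 h3 (fun x => {n | f x n = true}) (fun x => ?_) (fun A hA => ?_) ?_
    · have : f x ∈ Set.range f := ⟨x, rfl⟩
      rw [hr] at this
      exact this
    · classical
      have h4 : (fun n => decide (n ∈ A)) ∈ {x : ℕ → Bool | {n | x n = true} ∈ 𝒜} := by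
        have : {n | (fun n => decide (n ∈ A)) n = true} = A := by ext n; simp
        rw [Set.mem_ofPred_eq, this]
        exact hA
      rw [← hr] at h4
      obtain ⟨x, hx⟩ := h4
      refine ⟨x, ?_⟩
      ext n
      show f x n = true ↔ n ∈ A
      rw [hx]
      simp
    · intro x n
      have hcont : Continuous (fun x => f x n) := (continuous_apply n).comp hf
      have hopen : IsOpen ((fun x => f x n) ⁻¹' {f x n}) :=
        (isOpen_discrete {f x n}).preimage hcont
      obtain ⟨I, w, hw1, hw2⟩ := isOpen_pi_iff.1 hopen x rfl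
      refine ⟨I.sup id + 1, fun x' hx' => ?_⟩
      have h5 : x' ∈ (fun x => f x n) ⁻¹' {f x n} := by
        apply hw2
        intro i hi
        have h6 : i ≤ I.sup id := Finset.le_sup (f := id) hi
        rw [hx' i (by omega)]
        exact (hw1 i hi).2
      have h6 : f x' n = f x n := h5
      show f x' n = true ↔ f x n = true
      rw [h6]

end Pool.Agent.Q302.AZ
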